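import Pool.Agent.N209.GX.Defs

/-!
# Families of varieties over finite fields and the sign conjecture: definitions
-/

set_option autoImplicit false

open Filter Topology

universe u v

namespace Pool.Agent.N190.UK

open Pool.Agent.H914 Pool.Agent.N209.GX Pool.Agent.N190.FE VarClass Obj WeilCohomology

/-- Some class `x` of an algebraic cycle of codimension `dim X` on `X × X`, with complexity
`c x ≤ N`, acts as multiplication by the rational number `f i` on `H^i(X)`, for all `i`. -/
def ActsWithin {k : Type u} [Field k] {𝒱 : VarClass k} {ops : CycleOps 𝒱}
    (W : WeilCohomology.{u, v} ops) (X : 𝒱.Obj) (c : W.H (X.prod X) → ℕ) (N : ℕ) (f : ℕ → ℚ) :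
    Prop :=
  ∃ x ∈ classes W (X.prod X) X.dim, c x ≤ N ∧ ScalarOn (W.gr X) (W.corr x) f

/-- A Weil cohomology theory over some field, for some class of varieties. -/
structure Theory where
  /-- the base field -/
  k : Type u
  [field : Field k]
  /-- the class of varieties -/
  𝒱 : VarClass k
  /-- the operations on cycles -/
  ops : CycleOps 𝒱
  /-- the cohomology theory -/
  W : WeilCohomology.{u, v} ops

attribute [instance] Theory.field

/-- A family of varieties over the closed points of a scheme of finite type over the integers. -/
structure Family where
  /-- the set of closed points -/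
  T : Type u
  /-- the Zariski topology on the set of closed points -/
  [top : TopologicalSpace T]
  /-- the algebraic closures of the residue fields, which are finite fields, the varieties over
  them and the cohomology theories -/
  th : T → Theory.{u, v}
  /-- the geometric fibre of the family at `t` -/
  X : ∀ t, (th t).𝒱.Obj
  /-- the set of closed points whose residue field is the `r`-th member of a sequence of finite
  fields whose orders tend to infinity (for example the finite extensions of one finite field) -/
  pts : ℕ → Finset T
  /-- the complexity of the class `x` of a cycle on `X t × X t`: the least `N` such that `x` is the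
  class of a cycle which is the quotient of a difference of two effective cycles of degree at most
  `N` by a positive integer at most `N` -/
  cx : ∀ t, (th t).W.H ((X t).prod (X t)) → ℕ

attribute [instance] Family.top

namespace Family

variable (Φ : Family.{u, v})

/-- There is a cycle of complexity at most `N` on `X t × X t` which acts as multiplication by the
rational number `f i` on `H^i(X t)`, for all `i`. -/
def Has (N : ℕ) (f : ℕ → ℚ) (t : Φ.T) : Prop :=
  ActsWithin (Φ.th t).W (Φ.X t) (Φ.cx t) N f

/-- For some `N` there is such a cycle of complexity at most `N` for all `t`. -/
def Bounded (f : ℕ → ℚ) : Prop := ∃ N, ∀ t, Φ.Has N f t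

/-- For some `N` there is such a cycle of complexity at most `N` for a Zariski dense set of closed
points `t`. -/
def BoundedOnDense (f : ℕ → ℚ) : Prop := ∃ N, Dense {t | Φ.Has N f t}

/-- The proportion of those members of the family over the `r`-th finite field for which there is
such a cycle of complexity at most `N`. -/
noncomputable def proportion (f : ℕ → ℚ) (N r : ℕ) : ℝ :=
  ({t | t ∈ Φ.pts r ∧ Φ.Has N f t}.ncard : ℝ) / ((Φ.pts r).card : ℝ)

/-- For every function `ψ` which tends to infinity, the proportion of those members of the family
over the `r`-th finite field for which there is such a cycle of complexity at most `ψ r` does not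
tend to zero. -/
def OftenSmall (f : ℕ → ℚ) : Prop :=
  ∀ ψ : ℕ → ℕ, Tendsto ψ atTop atTop → ¬ Tendsto (fun r => Φ.proportion f (ψ r) r) atTop (𝓝 0)

/-- For a Zariski dense set of closed points `t` some cycles on `X t × X t` of bounded complexity
act on each `H^i(X t)` as multiplication by a rational number `f i` (independent of `t`), with
different numbers in the degrees `n - 1` and `n`. -/
def UniformSeparation (n : ℕ) : Prop :=
  ∃ f : ℕ → ℚ, (∀ i, i + 1 = n → f i ≠ f (i + 1)) ∧ Φ.BoundedOnDense f

/-- `X'` is the geometric generic fibre of the family `Φ`, with cohomology theory `W'`. The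
properties are theorems. `spread`, `rare`: for every `N` the set of all points `t` for which there
is a cycle of complexity at most `N` as in `Has` is constructible (Hilbert schemes), so that it
contains the generic point if it contains a Zariski dense set of closed points; and if it does not
contain the generic point, then the proportion of its points over a finite field tends to zero with
the order of the field (Lang and Weil). `specialize`: cycles specialise from the geometric generic
fibre to all fibres, with bounded degrees (Noetherian induction). -/
structure HasGenericFibre {k' : Type u} [Field k'] {𝒱' : VarClass k'} {ops' : CycleOps 𝒱'}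
    (W' : WeilCohomology.{u, v} ops') (X' : 𝒱'.Obj) : Prop where
  spread : ∀ f, Φ.BoundedOnDense f → Rational W' X' f
  rare : ∀ f, ¬ Rational W' X' f → ∀ N, Tendsto (fun r => Φ.proportion f N r) atTop (𝓝 0)
  nonempty : ∀ᶠ r in atTop, (Φ.pts r).Nonempty
  specialize : ∀ f, Rational W' X' f → Φ.Bounded f

end Family

/-- The projector onto the even cohomology acts by `1` in even and by `0` in odd degrees. -/
def even (i : ℕ) : ℚ := if Even i then 1 else 0

variable {k₁ : Type u} [Field k₁] {𝒱₁ : VarClass k₁} {ops₁ : CycleOps 𝒱₁}
  {W₁ : WeilCohomology.{u, v} ops₁} (𝓔 : Set (Extension W₁))

/-- Every variety over one of the fields in `𝓔` is the geometric generic fibre of a family. -/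
def HasFamilies : Prop :=
  ∀ F ∈ 𝓔, ∀ X : F.𝒱.Obj, ∃ Φ : Family.{u, v}, Φ.HasGenericFibre F.W X

/-- The property `p (dim X) Φ` holds for all families `Φ` with geometric generic fibre `X`, for all
varieties `X` over the fields in `𝓔`. -/
def ForAllFamilies (p : ℕ → Family.{u, v} → Prop) : Prop :=
  ∀ F ∈ 𝓔, ∀ (X : F.𝒱.Obj) (Φ : Family.{u, v}), Φ.HasGenericFibre F.W X → p X.dim Φ

end Pool.Agent.N190.UK
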