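import Pool.Agent.N190.UK.Defs
import Pool.Agent.N209.GX.Main
import Pool.Agent.N209.GS.Unif

/-!
# The sign conjecture over all perfect fields and the uniform theorem of Katz and Messing
-/

set_option autoImplicit false

open CategoryTheory AlgebraicGeometry Filter Topology

universe u v

namespace Pool.Agent.N190.UK

open Pool.Agent.H914 Pool.Agent.N190.FE VarClass Obj WeilCohomology
open Pool.Agent.N209.GX
open Pool.Agent.N209.GS (exists_slow)

lemma Family.Bounded.onDense {Φ : Family.{u, v}} {f : ℕ → ℚ} (h : Φ.Bounded f) :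
    Φ.BoundedOnDense f := by
  obtain ⟨N, hN⟩ := h
  refine ⟨N, ?_⟩
  have h1 : {t | Φ.Has N f t} = Set.univ := Set.eq_univ_of_forall hN
  rw [h1]
  exact dense_univ

lemma Family.Has.mono {Φ : Family.{u, v}} {f : ℕ → ℚ} {N M : ℕ} (h : N ≤ M) {t : Φ.T}
    (ht : Φ.Has N f t) : Φ.Has M f t := by
  obtain ⟨x, hx, hz, hz'⟩ := ht
  exact ⟨x, hx, hz.trans h, hz'⟩

lemma Family.Bounded.often {Φ : Family.{u, v}} {f : ℕ → ℚ} (h : Φ.Bounded f)
    (hne : ∀ᶠ r in atTop, (Φ.pts r).Nonempty) : Φ.OftenSmall f := by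
  obtain ⟨N, hN⟩ := h
  intro ψ hψ h0
  have h1 : Tendsto (fun r => Φ.proportion f (ψ r) r) atTop (𝓝 1) := by
    refine tendsto_const_nhds.congr' ?_
    filter_upwards [hne, hψ.eventually_ge_atTop N] with r hr hr'
    have h2 : {t | t ∈ Φ.pts r ∧ Φ.Has (ψ r) f t} = (Φ.pts r : Set Φ.T) := by
      ext t
      exact ⟨fun h => h.1, fun h => ⟨h, (hN t).mono hr'⟩⟩
    rw [Family.proportion, h2, Set.ncard_coe_finset, div_self]
    exact_mod_cast hr.card_pos.ne'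
  exact zero_ne_one (tendsto_nhds_unique h0 h1)

/-- **One family.** -/
theorem one_family {k : Type u} [Field k] {𝒱 : VarClass k} {ops : CycleOps 𝒱}
    {W : WeilCohomology.{u, v} ops} {X : 𝒱.Obj} {Φ : Family.{u, v}}
    (h : Φ.HasGenericFibre W X) :
    List.TFAE [ConjSign W X, Φ.Bounded even, Φ.BoundedOnDense even, Φ.OftenSmall even] := by
  tfae_have 1 → 2 := fun h1 => h.specialize _ h1
  tfae_have 2 → 3 := fun h2 => h2.onDense
  tfae_have 3 → 1 := fun h3 => h.spread _ h3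
  tfae_have 2 → 4 := fun h2 => h2.often h.nonempty
  tfae_have 4 → 1 := by
    intro h2
    by_contra hB
    obtain ⟨ψ, hψ, h0⟩ := exists_slow _ (h.rare even hB)
    exact h2 ψ hψ h0
  tfae_finish

variable {k₁ : Type u} [Field k₁] {𝒱₁ : VarClass k₁} {ops₁ : CycleOps 𝒱₁}
  {W₁ : WeilCohomology.{u, v} ops₁} {𝓔 : Set (Extension W₁)} {P : 𝒱₁.Obj} {h : P.Cycles}

/-- **All varieties.** -/
theorem all_families (hP : LineLike W₁ P h) (hS : HasSections 𝓔 P h) (hF : HasFamilies 𝓔) :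
    List.TFAE [∀ F ∈ 𝓔, ∀ X, ConjSign F.W X, LSC W₁,
      ForAllFamilies 𝓔 fun _ Φ => Φ.Bounded even,
      (∀ X, ConjSign W₁ X) ∧ ForAllFamilies 𝓔 fun n Φ => Odd n → Φ.UniformSeparation n] := by
  have ht := main_tfae hP hS
  tfae_have 2 ↔ 1 := ht.out 0 3
  have h5 : LSC W₁ ↔ _ := ht.out 0 4
  tfae_have 1 → 3 := fun h1 F hF' X Φ hΦ => ((one_family hΦ).out 0 1).1 (h1 F hF' X)
  tfae_have 3 → 1 := fun h3 F hF' X => by
    obtain ⟨Φ, hΦ⟩ := hF F hF' X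
    exact ((one_family hΦ).out 0 1).2 (h3 F hF' X Φ hΦ)
  tfae_have 2 → 4 := fun h3 => by
    obtain ⟨h6, h7⟩ := h5.1 h3
    refine ⟨h6, fun F hF' X Φ hΦ hodd => ?_⟩
    obtain ⟨f, hR, hf⟩ := h7 F hF' X hodd
    exact ⟨f, hf, (hΦ.specialize f hR).onDense⟩
  tfae_have 4 → 2 := fun ⟨h6, h7⟩ => h5.2 ⟨h6, fun F hF' X hodd => by
    obtain ⟨Φ, hΦ⟩ := hF F hF' X
    obtain ⟨f, hf, hd⟩ := h7 F hF' X Φ hΦ hodd
    exact ⟨f, hΦ.spread f hd, hf⟩⟩
  tfae_finish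

end Pool.Agent.N190.UK
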